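import Pool.Agent.H67.LW.Base

/-!
OW: every edge and every vertex belongs to exactly one place of a piece.
-/

set_option autoImplicit false

namespace LW

open Finset
open Pool.Agent.Helper36.BN (inc cyc bdry)

namespace OWL

variable {V : Type} [Fintype V] [DecidableEq V] {G : SimpleGraph V} {k : ℕ}
  {Valid : Finset V → Prop} {X : Finset V → Finset V} {C : Finset V} {P : Finset (Finset V)}

theorem child_card (hD : Dec G k Valid X) {E D : Finset V} (hE : Valid E) (h : Child G X E D) :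
    D.card < E.card := by
  obtain ⟨v, hv, hv'⟩ := hD.meet E hE
  have h1 : D ⊆ E \ X E := h.1
  refine card_lt_card ((ssubset_iff_of_subset (h1.trans sdiff_subset)).2 ⟨v, hv, fun h2 => ?_⟩)
  exact (mem_sdiff.1 (h1 h2)).2 hv'

theorem lowest (q : Finset V → Prop) (hC : C ∈ P) (hq : q C) :
    ∃ E ∈ P, q E ∧ ∀ E' ∈ P, q E' → E.card ≤ E'.card := by
  classical
  obtain ⟨E, hE, hm⟩ := exists_min_image (P.filter q) card ⟨C, mem_filter.2 ⟨hC, hq⟩⟩
  rw [mem_filter] at hE
  exact ⟨E, hE.1, hE.2, fun E' hE' hq' => hm E' (mem_filter.2 ⟨hE', hq'⟩)⟩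

/-- a vertex of a cluster of `P` outside its bag is in a child -/
theorem down (hD : Dec G k Valid X) {E : Finset V} (hE : Valid E) (hEP : E ∈ P) {u : V}
    (hu : u ∈ E) (hu' : u ∉ X E) (hmin : ∀ E' ∈ P, u ∈ E' → E.card ≤ E'.card) :
    ∃ D ∈ Hang G X P, u ∈ D := by
  obtain ⟨D, hD1, huD⟩ := exists_comp (G := G) (mem_sdiff.2 ⟨hu, hu'⟩)
  refine ⟨D, mem_Hang.2 ⟨fun hDP => ?_, E, hEP, hD1⟩, huD⟩
  have h1 := hmin D hDP huD
  have h2 := child_card hD hE hD1
  omega

end OWL

open OWL in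
theorem ow_thm (hLM : S_LM) : S_OW := by
  intro V _ _ G k Valid X C P hDec hC hP
  obtain ⟨l1, l2, l3, l4, -⟩ := hLM V G k Valid X hDec
  have hval : ∀ E ∈ P, Valid E := fun E hE => (l1 C E hC (hP.desc E hE)).1
  have hang : ∀ D ∈ Hang G X P, D ∉ P ∧ Valid D ∧ Desc G X C D ∧
      ∃ E ∈ P, Child G X E D ∧ nbr G D ⊆ X E := by
    intro D hD
    obtain ⟨h1, E, hE, h2⟩ := mem_Hang.1 hD
    have h3 : Desc G X C D := (hP.desc E hE).tail h2
    exact ⟨h1, (l1 C D hC h3).1, h3, E, hE, h2, (l3 E D (hval E hE) h2).1⟩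
  refine ⟨?_, ?_, ?_, ?_, ?_, ?_⟩
  · intro u v huv
    obtain ⟨E, hE, hq, hmin⟩ := lowest (P := P) (fun E => u ∈ E ∨ v ∈ E) hP.top huv.2
    have hEv := hval E hE
    by_cases hu : u ∈ X E
    · by_cases hv : v ∈ X E
      · exact Or.inl ⟨E, hE, hu, hv, hq⟩
      · have hvE : v ∈ E := by
          by_contra hvE
          have huE : u ∈ E := hq.resolve_right hvE
          exact hv (hDec.sub E hEv (mem_nbr.2 ⟨hvE, u, huE, huv.1⟩))
        obtain ⟨D, hD, h⟩ := down hDec hEv hE hvE hv fun E' hE' h => hmin E' hE' (Or.inr h)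
        exact Or.inr ⟨D, hD, Or.inr h⟩
    · have huE : u ∈ E := by
        by_contra huE
        have hvE : v ∈ E := hq.resolve_left huE
        exact hu (hDec.sub E hEv (mem_nbr.2 ⟨huE, v, hvE, huv.1.symm⟩))
      obtain ⟨D, hD, h⟩ := down hDec hEv hE huE hu fun E' hE' h => hmin E' hE' (Or.inl h)
      exact Or.inr ⟨D, hD, Or.inl h⟩
  · intro v hv
    rcases mem_union.1 hv with hv | hv
    · obtain ⟨E, hE, hq, hmin⟩ := lowest (P := P) (fun E => v ∈ E) hP.top hv
      by_cases hvX : v ∈ X E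
      · exact Or.inl ⟨E, hE, hvX⟩
      · exact Or.inr (down hDec (hval E hE) hE hq hvX hmin)
    · exact Or.inl ⟨C, hP.top, hDec.sub C hC hv⟩
  · intro E hE D hD
    obtain ⟨hDP, hDv, hCD, -⟩ := hang D hD
    rcases l2 C E D hC (hP.desc E hE) hCD with h | h | ⟨h, h'⟩
    · exact (((l1 E D (hval E hE) h).2.2.2 fun h0 => hDP (h0 ▸ hE)).2).symm
    · exact absurd (hP.up E hE D hCD h) hDP
    · rw [disjoint_left]
      intro v hv hvD
      rcases mem_union.1 (hDec.sup E (hval E hE) hv) with h1 | h1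
      · exact disjoint_left.1 h h1 hvD
      · obtain ⟨-, u, hu, huv⟩ := mem_nbr.1 h1
        exact h' u hu v hvD huv
  · have key : ∀ D ∈ Hang G X P, ∀ D' ∈ Hang G X P, D ≠ D' → ¬ Desc G X D D' := by
      intro D hD D' hD' hne h
      obtain ⟨hDP, -, hCD, -⟩ := hang D hD
      obtain ⟨-, -, -, E', hE', h3, -⟩ := hang D' hD'
      rcases Relation.ReflTransGen.cases_tail h with h1 | ⟨F, h1, h2⟩
      · exact hne h1.symm
      · have h4 : F = E' := l4 C F E' D' hC (hCD.trans h1) (hP.desc E' hE') h2 h3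
        subst h4
        exact hDP (hP.up F hE' D hCD h1)
    intro D hD D' hD' hne
    rcases l2 C D D' hC (hang D hD).2.2.1 (hang D' hD').2.2.1 with h | h | h
    · exact absurd h (key D hD D' hD' hne)
    · exact absurd h (key D' hD' D hD hne.symm)
    · exact h
  · intro E hE E' hE' u v huv hu hv hq hu' hv' hq'
    by_contra hne
    rcases l2 C E E' hC (hP.desc E hE) (hP.desc E' hE') with h | h | ⟨h, h'⟩
    · have h1 := ((l1 E E' (hval E hE) h).2.2.2 fun h0 => hne h0.symm).2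
      rcases hq' with h2 | h2
      · exact disjoint_left.1 h1 h2 hu
      · exact disjoint_left.1 h1 h2 hv
    · have h1 := ((l1 E' E (hval E' hE') h).2.2.2 hne).2
      rcases hq with h2 | h2
      · exact disjoint_left.1 h1 h2 hu'
      · exact disjoint_left.1 h1 h2 hv'
    · have key : ∀ x, x ∈ E → x ∈ X E' → False := by
        intro x hx hx'
        rcases mem_union.1 (hDec.sup E' (hval E' hE') hx') with h1 | h1
        · exact disjoint_left.1 h hx h1
        · obtain ⟨-, w, hw, hwx⟩ := mem_nbr.1 h1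
          exact h' x hx w hw hwx.symm
      rcases hq with h2 | h2
      · exact key u h2 hu'
      · exact key v h2 hv'
  · intro D hD
    obtain ⟨hDP, hDv, hCD, E, hE, h3, h4⟩ := hang D hD
    have h5 := l1 C D hC hCD
    refine ⟨hDv, hCD, (h5.2.2.2 fun h0 => hDP (h0 ▸ hP.top)).1, h5.2.1,
      (card_le_card h4).trans (hDec.card E (hval E hE)), E, hE, h3, h4⟩

end LW
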