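import Pool.Agent.H67.LW.Base

/-!
PV: from connectivity to a path vector.
-/

set_option autoImplicit false

namespace LW

open Finset
open Pool.Agent.Helper36.BN (inc cyc bdry supp mem_supp z2 z2_ne z2_add_self sum_inc)

namespace PVL

section

variable {W E : Type} [Fintype W] [DecidableEq W] [Fintype E] [DecidableEq E]

/-- more edges than vertices (minus one): a nonzero cycle vector -/
theorem ker_nonzero (s t : E → W) (S : Finset E) (U : Finset W) (v : W) (hv : v ∈ U)
    (hU : ∀ e ∈ S, s e ∈ U ∧ t e ∈ U) (hc : U.card ≤ S.card) : ∃ z ∈ cyc s t S, z ≠ 0 := by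
  classical
  let ex : (S → ZMod 2) → E → ZMod 2 := fun y e => if h : e ∈ S then y ⟨e, h⟩ else 0
  have hadd : ∀ y y' e, ex (y + y') e = ex y e + ex y' e := by
    intro y y' e
    by_cases h : e ∈ S <;> simp [ex, h]
  have hsmul : ∀ (c : ZMod 2) y e, ex (c • y) e = c * ex y e := by
    intro c y e
    by_cases h : e ∈ S <;> simp [ex, h]
  let L : (S → ZMod 2) →ₗ[ZMod 2] ({w // w ∈ U.erase v} → ZMod 2) :=
    { toFun := fun y w => ∑ e, ex y e * inc s t w.1 e
      map_add' := by
        intro y y'; funext w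
        simp only [Pi.add_apply, hadd, add_mul, sum_add_distrib]
      map_smul' := by
        intro c y; funext w
        simp only [Pi.smul_apply, hsmul, smul_eq_mul, mul_assoc, mul_sum, RingHom.id_apply] }
  have hker : LinearMap.ker L ≠ ⊥ := by
    apply LinearMap.ker_ne_bot_of_finrank_lt
    rw [Module.finrank_fintype_fun_eq_card, Module.finrank_fintype_fun_eq_card, Fintype.card_coe,
      Fintype.card_coe, card_erase_of_mem hv]
    have : 0 < U.card := card_pos.2 ⟨v, hv⟩
    omega
  obtain ⟨y, hy, hy0⟩ := (Submodule.ne_bot_iff _).1 hker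
  have h1 : ∀ w, w ≠ v → ∑ e, ex y e * inc s t w e = 0 := by
    intro w hw
    by_cases hwU : w ∈ U
    · exact congrFun (LinearMap.mem_ker.1 hy) ⟨w, mem_erase.2 ⟨hw, hwU⟩⟩
    · refine sum_eq_zero fun e _ => ?_
      by_cases he : e ∈ S
      · have h2 : s e ≠ w := fun h => hwU (h ▸ (hU e he).1)
        have h3 : t e ≠ w := fun h => hwU (h ▸ (hU e he).2)
        simp [inc, h2, h3]
      · simp [ex, he]
  refine ⟨ex y, ⟨fun e he => by simp [ex, he], fun w => ?_⟩, fun h0 => hy0 ?_⟩
  · by_cases hw : w = v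
    · subst hw
      have h2 : ∑ w', ∑ e, ex y e * inc s t w' e = 0 := by
        rw [sum_comm]
        refine sum_eq_zero fun e _ => ?_
        rw [← mul_sum, sum_inc, mul_zero]
      rw [sum_eq_single w] at h2
      · exact h2
      · intro w' _ hw'; exact h1 w' hw'
      · intro h'; exact absurd (mem_univ w) h'
    · exact h1 w hw
  · funext e
    have := congrFun h0 e.1
    simpa [ex] using this

theorem deg_cast (s t : E → W) (hl : ∀ e, s e ≠ t e) (x : E → ZMod 2) (w : W) :
    (deg s t x w : ZMod 2) = ∑ e, x e * inc s t w e := by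
  classical
  unfold deg
  rw [card_eq_sum_ones, sum_filter, Nat.cast_sum]
  refine sum_congr rfl fun e _ => ?_
  rcases z2 (x e) with h | h
  · simp [h]
  · by_cases h1 : s e = w
    · have h2 : t e ≠ w := fun h2 => hl e (h1.trans h2.symm)
      simp [h, h1, h2, inc]
    · by_cases h2 : t e = w
      · simp [h, h1, h2, inc]
      · simp [h, h1, h2, inc]

theorem deg_pos (s t : E → W) (x : E → ZMod 2) (w : W) :
    0 < deg s t x w ↔ ∃ e, x e ≠ 0 ∧ (s e = w ∨ t e = w) := by
  unfold deg
  rw [card_pos]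
  simp [Finset.Nonempty]

theorem deg_sum (s t : E → W) (hl : ∀ e, s e ≠ t e) (x : E → ZMod 2) :
    ∑ w, deg s t x w = 2 * (supp x).card := by
  classical
  unfold deg
  simp only [card_eq_sum_ones, sum_filter]
  rw [sum_comm, mul_sum, supp, sum_filter]
  refine sum_congr rfl fun e _ => ?_
  by_cases h : x e = 0
  · simp [h]
  · simp only [ne_eq, h, not_false_eq_true, true_and, if_true]
    rw [← sum_filter, ← card_eq_sum_ones]
    have : (univ.filter fun w => s e = w ∨ t e = w) = {s e, t e} := by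
      ext w
      simp [eq_comm]
    rw [this, card_pair (hl e), mul_one]

end

end PVL

open PVL in
theorem pv_thm : S_PV := by
  intro W E _ _ _ _ s t A a b hl hab hA
  classical
  -- some join
  have hex : ∃ x : E → ZMod 2, Join s t a b x ∧ ∀ e, x e ≠ 0 → s e ∈ A ∧ t e ∈ A := by
    refine hA.induct (p := fun v => ∃ x : E → ZMod 2, Join s t a v x ∧
      ∀ e, x e ≠ 0 → s e ∈ A ∧ t e ∈ A) ⟨0, fun v => ?_, by simp⟩ ?_
    · rw [z2_add_self]
      simp
    · rintro u hu w hw ⟨huw, e, he⟩ ⟨x, hx, hxA⟩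
      refine ⟨x + Pi.single e 1, fun v => ?_, fun e' he' => ?_⟩
      · have h1 : ∑ e', (x + Pi.single e 1 : E → ZMod 2) e' * inc s t v e' =
            ∑ e', x e' * inc s t v e' + inc s t v e := by
          simp only [Pi.add_apply, add_mul, sum_add_distrib]
          congr 1
          rw [sum_eq_single e]
          · simp
          · intro e' _ h; simp [Pi.single_eq_of_ne h]
          · intro h; exact absurd (mem_univ e) h
        have h2 : inc s t v e = (if v = u then 1 else 0) + (if v = w then 1 else 0) := by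
          unfold inc
          rcases he with ⟨h, h'⟩ | ⟨h, h'⟩
          · rw [h, h']
            simp only [eq_comm]
          · rw [h, h', add_comm]
            simp only [eq_comm]
        rw [h1, hx v, h2]
        have h3 := z2_add_self (if v = u then (1 : ZMod 2) else 0)
        linear_combination h3
      · by_cases h : e' = e
        · subst h
          rcases he with ⟨h, h'⟩ | ⟨h, h'⟩
          · exact ⟨h ▸ hu, h' ▸ hw⟩
          · exact ⟨h ▸ hw, h' ▸ hu⟩
        · refine hxA e' fun h0 => he' ?_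
          simp [h0, Pi.single_eq_of_ne h]
  -- minimal support
  obtain ⟨x₀, hx₀⟩ := hex
  obtain ⟨x, hx, hmin⟩ := exists_min_image
    (univ.filter fun x : E → ZMod 2 => Join s t a b x ∧ ∀ e, x e ≠ 0 → s e ∈ A ∧ t e ∈ A)
    (fun x => (supp x).card) ⟨x₀, mem_filter.2 ⟨mem_univ _, hx₀⟩⟩
  obtain ⟨-, hj, hxA⟩ := mem_filter.1 hx
  refine ⟨x, ⟨hj, fun v => ?_⟩, hxA⟩
  by_contra hv
  push Not at hv
  set S := supp x with hS
  let U : Finset W := univ.filter fun w => ∃ e ∈ S, s e = w ∨ t e = w
  have hU : ∀ e ∈ S, s e ∈ U ∧ t e ∈ U := by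
    intro e he
    constructor
    · exact mem_filter.2 ⟨mem_univ _, e, he, Or.inl rfl⟩
    · exact mem_filter.2 ⟨mem_univ _, e, he, Or.inr rfl⟩
  have hdU : ∀ w, w ∈ U → 0 < deg s t x w := by
    intro w hw
    obtain ⟨-, e, he, he'⟩ := mem_filter.1 hw
    exact (deg_pos s t x w).2 ⟨e, mem_supp.1 he, he'⟩
  let D : W → ℕ := fun w => deg s t x w + ((if w = a then 1 else 0) + (if w = b then 1 else 0))
  have hD2 : ∀ w, 2 ∣ D w := by
    intro w
    rw [← ZMod.natCast_eq_zero_iff]
    have h1 : ((D w : ℕ) : ZMod 2) = (deg s t x w : ZMod 2) +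
        ((if w = a then 1 else 0) + (if w = b then 1 else 0)) := by
      simp only [D]
      push_cast
      rfl
    rw [h1, deg_cast s t hl, hj w, z2_add_self]
  have hvU : v ∈ U := by
    have h1 : 0 < deg s t x v := by omega
    obtain ⟨e, he1, he2⟩ := (deg_pos s t x v).1 h1
    exact mem_filter.2 ⟨mem_univ _, e, mem_supp.2 he1, he2⟩
  have hge : ∀ w ∈ U, 2 + (if w = v then 2 else 0) ≤ D w := by
    intro w hw
    obtain ⟨m, hm⟩ := hD2 w
    have h1 := hdU w hw
    have h2 : deg s t x w ≤ D w := Nat.le_add_right _ _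
    split_ifs with h
    · subst h
      omega
    · omega
  have hsum : 2 * U.card + 2 ≤ ∑ w ∈ U, D w := by
    have h1 := sum_le_sum hge
    rw [sum_add_distrib, sum_const, smul_eq_mul, sum_ite_eq' U v, if_pos hvU] at h1
    omega
  have hsum2 : ∑ w ∈ U, D w ≤ 2 * S.card + 2 := by
    have h1 : ∑ w ∈ U, D w ≤ ∑ w, D w := sum_le_sum_of_subset (subset_univ _)
    have h2 : ∑ w, D w = 2 * S.card + 2 := by
      simp only [D]
      rw [sum_add_distrib, deg_sum s t hl, sum_add_distrib, sum_ite_eq', sum_ite_eq']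
      simp [hS]
    omega
  obtain ⟨z, hz, hz0⟩ := ker_nonzero s t S U v hvU hU (by omega)
  have hne : ∃ e, z e ≠ 0 := by
    by_contra h
    push Not at h
    exact hz0 (funext h)
  obtain ⟨e₀, he₀⟩ := hne
  have he₀S : e₀ ∈ S := by
    by_contra h
    exact he₀ (hz.1 e₀ h)
  have hsub : supp (x + z) ⊆ S := by
    intro e he
    by_contra h
    have h1 : x e = 0 := by
      by_contra h1
      exact h (mem_supp.2 h1)
    have h2 := mem_supp.1 he
    rw [Pi.add_apply, h1, hz.1 e h, add_zero] at h2
    exact h2 rfl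
  have h1 := hmin (x + z) (mem_filter.2 ⟨mem_univ _, fun w => ?_, fun e he => ?_⟩)
  · have h2 : supp (x + z) ⊂ S := by
      refine (ssubset_iff_of_subset hsub).2 ⟨e₀, he₀S, fun h => ?_⟩
      have h3 := mem_supp.1 h
      rw [Pi.add_apply, z2_ne.1 (mem_supp.1 he₀S), z2_ne.1 he₀, z2_add_self] at h3
      exact h3 rfl
    have h3 := card_lt_card h2
    omega
  · have h2 : ∑ e, (x + z) e * inc s t w e =
        ∑ e, x e * inc s t w e + ∑ e, z e * inc s t w e := by
      simp only [Pi.add_apply, add_mul, sum_add_distrib]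
    rw [h2, hz.2 w, add_zero, hj w]
  · exact hxA e (mem_supp.1 (hsub (mem_supp.2 he)))

end LW
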