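import Pool.Agent.Helper23.LW.Spec

/-!
# Part GRD: the generic curve through a point
-/

set_option autoImplicit false

namespace Pool.Agent.Helper29.LW.GRD

open MvPolynomial Pool.Agent.Helper23.LW

variable {M : ℕ}

/-- the generic substitution -/
noncomputable def gx (w : Fin M → ℕ) (P : Fin M → ℂ) (i : Fin M) :
    Polynomial (MvPolynomial (Σ i : Fin M, Fin (w i)) ℂ) :=
  Polynomial.C (C (P i)) +
    ∑ l : Fin (w i), Polynomial.C (X ⟨i, l⟩) * Polynomial.X ^ ((l : ℕ) + 1)

theorem gx_coeff (w : Fin M → ℕ) (P : Fin M → ℂ) (i : Fin M) (k : ℕ) :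
    IsWeightedHomogeneous (fun a : (Σ i : Fin M, Fin (w i)) => (a.2 : ℕ) + 1)
      ((gx w P i).coeff k) k := by
  unfold gx
  rw [Polynomial.coeff_add, Polynomial.finsetSum_coeff]
  refine Submodule.add_mem (weightedHomogeneousSubmodule ℂ _ k) ?_
    (Submodule.sum_mem _ fun l _ => ?_)
  · rw [Polynomial.coeff_C]
    split_ifs with h
    · subst h
      exact isWeightedHomogeneous_C _ _
    · exact Submodule.zero_mem _
  · rw [Polynomial.coeff_C_mul, Polynomial.coeff_X_pow]
    split_ifs with h
    · rw [mul_one, h]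
      exact isWeightedHomogeneous_X ℂ _ _
    · rw [mul_zero]
      exact Submodule.zero_mem _

theorem gx_deg (w : Fin M → ℕ) (P : Fin M → ℂ) (i : Fin M) : (gx w P i).natDegree ≤ w i := by
  unfold gx
  refine (Polynomial.natDegree_add_le _ _).trans (max_le ?_ ?_)
  · rw [Polynomial.natDegree_C]
    exact Nat.zero_le _
  · refine Polynomial.natDegree_sum_le_of_forall_le _ _ fun l _ => ?_
    refine (Polynomial.natDegree_C_mul_X_pow_le _ _).trans ?_
    exact l.2

theorem hom (w : Fin M → ℕ) (P : Fin M → ℂ) (H : MvPolynomial (Fin M) ℂ) :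
    ∀ k, IsWeightedHomogeneous (fun a : (Σ i : Fin M, Fin (w i)) => (a.2 : ℕ) + 1)
      ((aeval (gx w P) H).coeff k) k := by
  induction H using MvPolynomial.induction_on with
  | C a =>
    intro k
    rw [MvPolynomial.aeval_C]
    show IsWeightedHomogeneous _ ((Polynomial.C (C a)).coeff k) k
    rw [Polynomial.coeff_C]
    split_ifs with h
    · subst h
      exact isWeightedHomogeneous_C _ _
    · exact Submodule.zero_mem (weightedHomogeneousSubmodule ℂ _ k)
  | add p q hp hq =>
    intro k
    rw [map_add, Polynomial.coeff_add]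
    exact Submodule.add_mem (weightedHomogeneousSubmodule ℂ _ k) (hp k) (hq k)
  | mul_X p i hp =>
    intro k
    rw [map_mul, MvPolynomial.aeval_X, Polynomial.coeff_mul]
    refine Submodule.sum_mem (weightedHomogeneousSubmodule ℂ _ k) fun x hx => ?_
    have h := (hp x.1).mul (gx_coeff w P i x.2)
    rw [Finset.HasAntidiagonal.mem_antidiagonal.1 hx] at h
    exact h

theorem deg (w : Fin M → ℕ) (P : Fin M → ℂ) (H : MvPolynomial (Fin M) ℂ) (D : ℕ)
    (hH : IsWeightedHomogeneous w H D) : (aeval (gx w P) H).natDegree ≤ D := by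
  rw [H.as_sum, map_sum]
  refine Polynomial.natDegree_sum_le_of_forall_le _ _ fun m hm => ?_
  rw [MvPolynomial.aeval_monomial]
  have h1 : Finsupp.weight w m = D := hH (MvPolynomial.mem_support_iff.1 hm)
  have h2 : (algebraMap ℂ (Polynomial (MvPolynomial (Σ i : Fin M, Fin (w i)) ℂ)) (coeff m H)) =
    Polynomial.C (C (coeff m H)) := rfl
  rw [h2]
  refine (Polynomial.natDegree_C_mul_le _ _).trans ?_
  rw [Finsupp.prod]
  refine (Polynomial.natDegree_prod_le _ _).trans ?_
  rw [← h1, Finsupp.weight_apply, Finsupp.sum]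
  refine Finset.sum_le_sum fun i _ => ?_
  refine Polynomial.natDegree_pow_le.trans ?_
  rw [smul_eq_mul]
  exact Nat.mul_le_mul_left _ (gx_deg w P i)

theorem main : St_GRD := by
  intro M w H D hH P
  refine ⟨fun k => (aeval (gx w P) H).coeff k, hom w P H, fun k hk => ?_, ?_, fun z k => ?_⟩
  · exact Polynomial.coeff_eq_zero_of_natDegree_lt ((deg w P H D hH).trans_lt hk)
  · have h1 : ((Polynomial.constantCoeff (R := MvPolynomial (Σ i : Fin M, Fin (w i)) ℂ)).comp
        (aeval (gx w P)).toRingHom : MvPolynomial (Fin M) ℂ →+* _) = C.comp (eval P) := by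
      apply MvPolynomial.ringHom_ext
      · intro a
        simp
      · intro i
        simp [gx]
    have h2 : Polynomial.constantCoeff (aeval (gx w P) H) = C (eval P H) :=
      RingHom.congr_fun h1 H
    rwa [Polynomial.constantCoeff_apply] at h2
  · have h1 : ((Polynomial.mapRingHom (eval z)).comp (aeval (gx w P)).toRingHom :
        MvPolynomial (Fin M) ℂ →+* Polynomial ℂ) =
        (aeval (fun i => Polynomial.C (P i) +
          ∑ l : Fin (w i), Polynomial.C (z ⟨i, l⟩) * Polynomial.X ^ ((l : ℕ) + 1))).toRingHom := by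
      apply MvPolynomial.ringHom_ext
      · intro a
        simp
      · intro i
        simp [gx, Polynomial.map_sum]
    have h2 := RingHom.congr_fun h1 H
    have h3 : (aeval (fun i => Polynomial.C (P i) +
        ∑ l : Fin (w i), Polynomial.C (z ⟨i, l⟩) * Polynomial.X ^ ((l : ℕ) + 1)) H :
          Polynomial ℂ) = Polynomial.map (eval z) (aeval (gx w P) H) := h2.symm
    rw [h3, Polynomial.coeff_map]

end Pool.Agent.Helper29.LW.GRD
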